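import Mathlib
import Pool.Agent.Q263.WR.Stmt
set_option autoImplicit false

/-!
# The wave equation with data randomized over bounded blocks of frequencies

The Fourier transforms of the data of the wave equation in `ℝ^d` are multiplied by independent,
centred random factors, one for each block of a partition of `ℤ^d` into blocks with at most `A`
points. Then there is no loss of derivatives in `L^p`, `p ≥ 2`, neither at a fixed time nor on average
over `[1,2]`. Definitions: `Pool/Agent/Q263/WR/Stmt.lean`.
-/

namespace Pool.Agent.Results.MP_ee74d2_an.BoundedBlocks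

open Pool.Agent.Q263.WRS
open scoped NNReal

/-- **No loss of derivatives for data randomized over bounded blocks of frequencies**, in dimension
`n + 1`, for `p ≥ 2` and `δ > 0`. The constants `C` and `κ > 0` do not depend on the blocks. -/
theorem result (n : ℕ) (p : ℝ) (δ : ℝ≥0) (hp : 2 ≤ p) (hδ : 0 < δ) (A : ℝ) :
    ∃ (C : ℝ≥0) (κ : ℝ), 0 < κ ∧ ∀ c : (Fin (n + 1) → ℤ) → ℕ,
      BlockSize A 0 c → RandomEstimate p 0 δ C κ c :=
  bounded n p δ hp hδ A

end Pool.Agent.Results.MP_ee74d2_an.BoundedBlocks
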