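import Mathlib
import Pool.Agent.Q263.WR.Stmt
set_option autoImplicit false

/-!
# Local smoothing for data randomized over growing blocks of frequencies

The Fourier transforms of the data of the wave equation in `ℝ^d` are multiplied by independent,
centred random factors, one for each block of a partition of `ℤ^d` into finite blocks. If the block
of `k` has at most `A (1 + |k|)^β` points, the solution is estimated, at a fixed time or on average
over `[1,2]`, with a loss of any number of derivatives above `β(1/2 - 1/p)`. The exponents of the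
local smoothing conjecture are reached for `β ≤ d - p/(p-2)`. Definitions:
`Pool/Agent/Q263/WR/Stmt.lean`.
-/

namespace Pool.Agent.Results.MP_ee74d2_an.GrowingBlocks

open Pool.Agent.Q263.WRS
open scoped NNReal

/-- **Local smoothing for data randomized over growing blocks of frequencies**, in dimension
`d = n + 1`, for `p ≥ 2` and `δ > 0`. The constants `C` and `κ > 0` do not depend on the blocks.

1. If the block of `k` has at most `A (1 + |k|)^β` points, `β ≥ 0`, the estimate holds for all
`s > β(1/2 - 1/p)`.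

2. In particular, for `p ≥ 2d/(d-1)` and `s = s_p - σ`, `s_p = (d-1)(1/2 - 1/p)`, it holds for every
`σ < 1/p` if `β ≤ d - p/(p-2)`. -/
theorem result (n : ℕ) (p : ℝ) (δ : ℝ≥0) (hp : 2 ≤ p) (hδ : 0 < δ) :
    (∀ A β s : ℝ, 0 ≤ β → β * (1 / 2 - 1 / p) < s → ∃ (C : ℝ≥0) (κ : ℝ), 0 < κ ∧
      ∀ c : (Fin (n + 1) → ℤ) → ℕ, BlockSize A β c → RandomEstimate p s δ C κ c) ∧
    (∀ A β σ : ℝ, 1 ≤ n → 2 * (n + 1) / n ≤ p → 0 ≤ β → β ≤ n + 1 - p / (p - 2) → σ < 1 / p →
      ∃ (C : ℝ≥0) (κ : ℝ), 0 < κ ∧ ∀ c : (Fin (n + 1) → ℤ) → ℕ, BlockSize A β c →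
        RandomEstimate p ((n : ℝ) / 2 - n / p - σ) δ C κ c) :=
  ⟨growing n p δ hp hδ, smoothing n p δ hp hδ⟩

end Pool.Agent.Results.MP_ee74d2_an.GrowingBlocks
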