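import Mathlib
import Pool.Agent.Q93.LSP.M
set_option autoImplicit false

/-!
# Local smoothing is equivalent to one good time

`u` solves the wave equation in `ℝ^d` with Schwartz data `u₀, u₁`. The local smoothing estimate (an
`L^p` average over `1 ≤ t ≤ 2` of the `L^p` norm of `u(t)`) is equivalent to the statement that
every datum has at least ONE time `t` in a fixed interval with the bound for `‖u(t)‖_p`, and to the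
purely qualitative statement that every solution with data in `L^p_s × L^p_{s-1}` is in `L^p` for at
least one time `t ≠ 0`.
-/

namespace Pool.Agent.Results.MP_ee74d2_an.OneGoodTime

open MeasureTheory Set Filter
open scoped ENNReal NNReal FourierTransform SchwartzMap

/-- `ℝ^d` with the Euclidean norm. -/
abbrev R (d : ℕ) := EuclideanSpace ℝ (Fin d)

variable {d : ℕ}

/-- `(1 - Δ)^(s/2) f`. -/
noncomputable def bessel (s : ℝ) (f : 𝓢(R d, ℂ)) : R d → ℂ :=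
  𝓕⁻ fun ξ => (((1 + 4 * Real.pi ^ 2 * ‖ξ‖ ^ 2) ^ (s / 2) : ℝ) : ℂ) * 𝓕 f ξ

/-- `‖u₀‖_{L^p_s} + ‖u₁‖_{L^p_{s-1}}`. -/
noncomputable def size (p s : ℝ) (u₀ u₁ : 𝓢(R d, ℂ)) : ℝ≥0∞ :=
  eLpNorm (bessel s u₀) (ENNReal.ofReal p) volume +
    eLpNorm (bessel (s - 1) u₁) (ENNReal.ofReal p) volume

/-- `u(t)` for the solution of `∂ₜ²u = Δu`, `u(0) = u₀`, `∂ₜu(0) = u₁`; `sinc r = sin r / r`. -/
noncomputable def wave (u₀ u₁ : 𝓢(R d, ℂ)) (t : ℝ) : R d → ℂ :=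
  𝓕⁻ fun ξ => ((Real.cos (2 * Real.pi * t * ‖ξ‖) : ℝ) : ℂ) * 𝓕 u₀ ξ +
    ((t * Real.sinc (2 * Real.pi * t * ‖ξ‖) : ℝ) : ℂ) * 𝓕 u₁ ξ

/-- `‖u(t)‖_p`. -/
noncomputable def slice (p : ℝ) (u₀ u₁ : 𝓢(R d, ℂ)) (t : ℝ) : ℝ≥0∞ :=
  eLpNorm (wave u₀ u₁ t) (ENNReal.ofReal p) volume

/-- `(∫_a^b ‖u(t)‖_p^q dt)^(1/q) ≤ C (‖u₀‖_{L^p_s} + ‖u₁‖_{L^p_{s-1}})` for all data. -/
def TimeAverage (d : ℕ) (q p s a b : ℝ) (C : ℝ≥0) : Prop :=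
  ∀ u₀ u₁ : 𝓢(R d, ℂ),
    (∫⁻ t in Icc a b, slice p u₀ u₁ t ^ q) ^ (1 / q) ≤ C * size p s u₀ u₁

/-- All data have some `t ∈ [a,b]` with `‖u(t)‖_p ≤ C (‖u₀‖_{L^p_s} + ‖u₁‖_{L^p_{s-1}})`. -/
def GoodTime (d : ℕ) (p s a b : ℝ) (C : ℝ≥0) : Prop :=
  ∀ u₀ u₁ : 𝓢(R d, ℂ), ∃ t ∈ Icc a b, slice p u₀ u₁ t ≤ C * size p s u₀ u₁

/-- If `∑ₙ (‖u₀ₙ‖_{L^p_s} + ‖u₁ₙ‖_{L^p_{s-1}}) < ∞` then `∑ₙ ‖uₙ(t)‖_p < ∞` for almost all `t`. -/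
def AlmostAllTimes (d : ℕ) (p s : ℝ) : Prop :=
  ∀ u₀ u₁ : ℕ → 𝓢(R d, ℂ), ∑' n, size p s (u₀ n) (u₁ n) < ⊤ →
    ∀ᵐ t : ℝ, ∑' n, slice p (u₀ n) (u₁ n) t < ⊤

/-- If `∑ₙ (‖u₀ₙ‖_{L^p_s} + ‖u₁ₙ‖_{L^p_{s-1}}) < ∞` and `∑ₙ uₙ` converges to `u` locally uniformly
on `ℝ × ℝ^d` then `u(t) ∈ L^p` for at least one `t ≠ 0`. -/
def SomeTime (d : ℕ) (p s : ℝ) : Prop :=
  ∀ (u₀ u₁ : ℕ → 𝓢(R d, ℂ)) (u : ℝ × R d → ℂ), ∑' n, size p s (u₀ n) (u₁ n) < ⊤ →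
    TendstoLocallyUniformly (fun N z => ∑ n ∈ Finset.range N, wave (u₀ n) (u₁ n) z.1 z.2) u
      atTop → ∃ t ≠ 0, eLpNorm (fun x => u (t, x)) (ENNReal.ofReal p) volume < ⊤

/-- Sogge's conjecture Q1. -/
def Conjecture : Prop :=
  ∀ (d : ℕ) (p σ : ℝ), 3 ≤ d → 2 * d / (d - 1) ≤ p → σ < 1 / p →
    ∃ C : ℝ≥0, TimeAverage d p p ((d - 1) / 2 - (d - 1) / p - σ) 1 2 C

open Pool.Agent.Q93.LSP (mu bs br cs sc wv nm sz en Nt Av Gd Fam fam_cs fam_sc ps)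

lemma bessel_eq (s : ℝ) (f : 𝓢(R d, ℂ)) : bessel s f = mu (bs s) f := rfl

lemma size_eq (p s : ℝ) (u₀ u₁ : 𝓢(R d, ℂ)) : size p s u₀ u₁ = sz p s (u₀, u₁) := rfl

lemma wave_eq (u₀ u₁ : 𝓢(R d, ℂ)) (t : ℝ) : wave u₀ u₁ t = wv (u₀, u₁) t := by
  ext x
  have h1 := fam_cs.sym t u₀
  have h2 := (fam_sc.sym t u₁).const_mul (t : ℂ)
  have e : (fun ξ : R d => ((Real.cos (2 * Real.pi * t * ‖ξ‖) : ℝ) : ℂ) * 𝓕 u₀ ξ +
      ((t * Real.sinc (2 * Real.pi * t * ‖ξ‖) : ℝ) : ℂ) * 𝓕 u₁ ξ)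
      = fun ξ => cs t ξ * 𝓕 (u₀ : R d → ℂ) ξ + (t : ℂ) * (sc t ξ * 𝓕 (u₁ : R d → ℂ) ξ) := by
    ext ξ
    rw [← SchwartzMap.fourier_coe, ← SchwartzMap.fourier_coe]
    unfold cs sc
    push_cast
    ring
  unfold wave
  rw [e, Pool.Agent.Q93.LSP.finv_add h1 h2, Pool.Agent.Q93.LSP.finv_const_mul]
  rfl

lemma slice_eq (p : ℝ) (u₀ u₁ : 𝓢(R d, ℂ)) (t : ℝ) : slice p u₀ u₁ t = Nt p (u₀, u₁) t := by
  unfold slice Nt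
  rw [wave_eq]

lemma good_iff (d : ℕ) (p s a b : ℝ) (C : ℝ≥0) : GoodTime d p s a b C ↔ Gd (R d) p s a b C := by
  unfold GoodTime Gd
  simp only [slice_eq, size_eq]
  exact ⟨fun h v => h v.1 v.2, fun h u₀ u₁ => h (u₀, u₁)⟩

lemma avg_iff (d : ℕ) {q : ℝ} (hq : 0 < q) (p s a b : ℝ) (C : ℝ≥0) :
    TimeAverage d q p s a b C ↔ ∀ u : 𝓢(R d, ℂ) × 𝓢(R d, ℂ),
      ∫⁻ t in Icc a b, Nt p u t ^ q ≤ (C * sz p s u) ^ q := by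
  unfold TimeAverage
  simp only [slice_eq, size_eq]
  have key : ∀ X Y : ℝ≥0∞, X ^ (1 / q) ≤ Y ↔ X ≤ Y ^ q := by
    intro X Y
    rw [← ENNReal.rpow_le_rpow_iff hq, ← ENNReal.rpow_mul, one_div, inv_mul_cancel₀ hq.ne',
      ENNReal.rpow_one]
  simp only [key]
  exact ⟨fun h v => h v.1 v.2, fun h u₀ u₁ => h (u₀, u₁)⟩

lemma av_iff (d : ℕ) {p : ℝ} (hp : 1 ≤ p) (s a b : ℝ) (C : ℝ≥0) :
    TimeAverage d p p s a b C ↔ Av (R d) p s a b C := by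
  rw [avg_iff d (by linarith)]
  unfold Av
  simp only [Pool.Agent.Q93.LSP.Nt_pow hp]

lemma exists_unit {d : ℕ} (hd : 1 ≤ d) : ∃ e : R d, ‖e‖ = 1 :=
  ⟨EuclideanSpace.single ⟨0, hd⟩ 1, by simp⟩

theorem result :
    (∀ (d : ℕ) (p s : ℝ), 1 ≤ d → 1 ≤ p →
      (∀ a b : ℝ, 0 < a → a ≤ b → ∃ A : ℝ≥0, ∀ C : ℝ≥0,
        GoodTime d p s a b C → TimeAverage d p p s 1 2 (A * C)) ∧
      List.TFAE [
        ∃ C : ℝ≥0, TimeAverage d p p s 1 2 C,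
        ∀ a b : ℝ, 0 < a → ∃ C : ℝ≥0, TimeAverage d p p s a b C,
        ∃ (q a b : ℝ) (C : ℝ≥0), 0 < q ∧ 0 < a ∧ a < b ∧ TimeAverage d q p s a b C,
        ∃ (a b : ℝ) (C : ℝ≥0), 0 < a ∧ a ≤ b ∧ GoodTime d p s a b C,
        AlmostAllTimes d p s,
        SomeTime d p s]) ∧
    (Conjecture ↔ ∀ (d : ℕ) (p σ : ℝ), 3 ≤ d → 2 * d / (d - 1) ≤ p → σ < 1 / p →
      ∃ C : ℝ≥0, GoodTime d p ((d - 1) / 2 - (d - 1) / p - σ) 1 2 C) ∧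
    (Conjecture ↔ ∀ (d : ℕ) (p σ : ℝ), 3 ≤ d → 2 * d / (d - 1) ≤ p → σ < 1 / p →
      SomeTime d p ((d - 1) / 2 - (d - 1) / p - σ)) := by
  have main : ∀ (d : ℕ) (p s : ℝ), 1 ≤ d → 1 ≤ p →
      (∀ a b : ℝ, 0 < a → a ≤ b → ∃ A : ℝ≥0, ∀ C : ℝ≥0,
        GoodTime d p s a b C → TimeAverage d p p s 1 2 (A * C)) ∧
      List.TFAE [
        ∃ C : ℝ≥0, TimeAverage d p p s 1 2 C,
        ∀ a b : ℝ, 0 < a → ∃ C : ℝ≥0, TimeAverage d p p s a b C,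
        ∃ (q a b : ℝ) (C : ℝ≥0), 0 < q ∧ 0 < a ∧ a < b ∧ TimeAverage d q p s a b C,
        ∃ (a b : ℝ) (C : ℝ≥0), 0 < a ∧ a ≤ b ∧ GoodTime d p s a b C,
        AlmostAllTimes d p s,
        SomeTime d p s] := by
    intro d p s hd hp
    obtain ⟨e, he⟩ := exists_unit hd
    constructor
    · intro a b ha hab
      obtain ⟨A, hA⟩ := Pool.Agent.Q93.LSP.avg (E := R d) hp s he ha hab
      refine ⟨A, fun C hC => ?_⟩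
      rw [av_iff d hp]
      exact hA C ((good_iff d p s a b C).1 hC)
    · have h := Pool.Agent.Q93.LSP.equiv (E := R d) hp s he
      have e1 : (∃ C : ℝ≥0, TimeAverage d p p s 1 2 C) ↔ ∃ C : ℝ≥0, Av (R d) p s 1 2 C := by
        simp only [av_iff d hp]
      have e2 : (∀ a b : ℝ, 0 < a → ∃ C : ℝ≥0, TimeAverage d p p s a b C)
          ↔ ∀ a b : ℝ, 0 < a → ∃ C : ℝ≥0, Av (R d) p s a b C := by
        simp only [av_iff d hp]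
      have e3 : (∃ (q a b : ℝ) (C : ℝ≥0), 0 < q ∧ 0 < a ∧ a < b ∧ TimeAverage d q p s a b C)
          ↔ ∃ (q a b : ℝ) (C : ℝ≥0), 0 < q ∧ 0 < a ∧ a < b ∧
            ∀ u : 𝓢(R d, ℂ) × 𝓢(R d, ℂ), ∫⁻ t in Icc a b, Nt p u t ^ q ≤ (C * sz p s u) ^ q := by
        constructor
        · rintro ⟨q, a, b, C, hq, ha, hab, h⟩
          exact ⟨q, a, b, C, hq, ha, hab, (avg_iff d hq p s a b C).1 h⟩
        · rintro ⟨q, a, b, C, hq, ha, hab, h⟩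
          exact ⟨q, a, b, C, hq, ha, hab, (avg_iff d hq p s a b C).2 h⟩
      have e4 : (∃ (a b : ℝ) (C : ℝ≥0), 0 < a ∧ a ≤ b ∧ GoodTime d p s a b C)
          ↔ ∃ (a b : ℝ) (C : ℝ≥0), 0 < a ∧ a ≤ b ∧ Gd (R d) p s a b C := by
        simp only [good_iff]
      have e5 : AlmostAllTimes d p s ↔ ∀ F : ℕ → 𝓢(R d, ℂ) × 𝓢(R d, ℂ),
          ∑' n, sz p s (F n) < ⊤ → ∀ᵐ t : ℝ, ∑' n, Nt p (F n) t < ⊤ := by
        unfold AlmostAllTimes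
        simp only [slice_eq, size_eq]
        exact ⟨fun h F hF => h (fun n => (F n).1) (fun n => (F n).2) hF,
          fun h u₀ u₁ hF => h (fun n => (u₀ n, u₁ n)) hF⟩
      have e6 : SomeTime d p s ↔ ∀ (F : ℕ → 𝓢(R d, ℂ) × 𝓢(R d, ℂ)) (u : ℝ × R d → ℂ),
          ∑' n, sz p s (F n) < ⊤ → TendstoLocallyUniformly (ps F) u atTop →
            ∃ t ≠ 0, eLpNorm (fun x => u (t, x)) (ENNReal.ofReal p) volume < ⊤ := by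
        unfold SomeTime
        simp only [wave_eq, size_eq]
        exact ⟨fun h F u hF hu => h (fun n => (F n).1) (fun n => (F n).2) u hF hu,
          fun h u₀ u₁ u hF hu => h (fun n => (u₀ n, u₁ n)) u hF hu⟩
      rw [e1, e2, e3, e4, e5, e6]
      exact h
  have hd1 : ∀ (d : ℕ) (p : ℝ), 3 ≤ d → 2 * (d : ℝ) / (d - 1) ≤ p → 1 ≤ d ∧ 1 ≤ p := by
    intro d p hd hp
    have h3 : (3 : ℝ) ≤ d := by exact_mod_cast hd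
    refine ⟨by omega, le_trans ?_ hp⟩
    rw [le_div_iff₀ (by linarith)]
    linarith
  refine ⟨main, ?_, ?_⟩
  · constructor
    · intro h d p σ hd hp hσ
      obtain ⟨h1, h2⟩ := hd1 d p hd hp
      obtain ⟨C, hC⟩ := h d p σ hd hp hσ
      exact ⟨C, (good_iff _ _ _ _ _ _).2 (((av_iff d h2 _ _ _ _).1 hC).good h2)⟩
    · intro h d p σ hd hp hσ
      obtain ⟨h1, h2⟩ := hd1 d p hd hp
      obtain ⟨C, hC⟩ := h d p σ hd hp hσ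
      have h5 : ∃ (a b : ℝ) (C : ℝ≥0), 0 < a ∧ a ≤ b ∧
          GoodTime d p ((d - 1) / 2 - (d - 1) / p - σ) a b C :=
        ⟨1, 2, C, one_pos, one_le_two, hC⟩
      exact ((main d p ((d - 1) / 2 - (d - 1) / p - σ) h1 h2).2.out 0 3).2 h5
  · constructor
    · intro h d p σ hd hp hσ
      obtain ⟨h1, h2⟩ := hd1 d p hd hp
      exact ((main d p ((d - 1) / 2 - (d - 1) / p - σ) h1 h2).2.out 0 5).1 (h d p σ hd hp hσ)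
    · intro h d p σ hd hp hσ
      obtain ⟨h1, h2⟩ := hd1 d p hd hp
      exact ((main d p ((d - 1) / 2 - (d - 1) / p - σ) h1 h2).2.out 0 5).2 (h d p σ hd hp hσ)

end Pool.Agent.Results.MP_ee74d2_an.OneGoodTime
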