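import Mathlib
import Pool.Agent.Q89.WS.S
set_option autoImplicit false

/-!
# Local smoothing for data with frequencies near a set of small lifted multiplicity

`u` solves the wave equation in `ℝ^d`; its data have their Fourier transforms supported in the unit
cubes about the points of a set `Λ ⊆ ℤ^d`. The local smoothing estimate is reduced to an `ℓ²`
estimate for the exponential sums `∑ c_k e(k·y + |k|t)`, `k ∈ Λ`, on `[1,2] × [0,1]^d`, and it is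
proved unconditionally, for all exponents `p ≥ 4` of the conjecture and every `σ < 1/p`, for those
`Λ` with `#(Λ ∩ B_R) ≤ A R^(d-1)` for which every ellipsoidal shell
`{k : ||k| + |n-k| - τ| ≤ 1}` meets `Λ ∩ (n - Λ) ∩ B_R ∩ (n - B_R)` in at most `A R^(d-2)` points.
-/

namespace Pool.Agent.Results.MP_ee74d2_an.SpectralMultiplicity

open MeasureTheory Set Complex
open scoped ENNReal NNReal

variable {d : ℕ}

/-- The Euclidean norm. -/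
noncomputable def nrm (ξ : Fin d → ℝ) : ℝ := Real.sqrt (∑ i, ξ i ^ 2)

/-- The Euclidean norm of a point of `ℤ^d`. -/
noncomputable def len (k : Fin d → ℤ) : ℝ := nrm fun i => (k i : ℝ)

/-- `exp(2πi x·ξ)`. -/
noncomputable def chr (x ξ : Fin d → ℝ) : ℂ := cexp (2 * Real.pi * I * ((∑ i, x i * ξ i : ℝ) : ℂ))

/-- The Fourier transform `∫ exp(-2πi x·ξ) f(x) dx`. -/
noncomputable def ft (f : (Fin d → ℝ) → ℂ) (ξ : Fin d → ℝ) : ℂ := ∫ x, chr (-x) ξ * f x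

/-- The symbol of `(1 - Δ)^(a/2)`. -/
noncomputable def bessel (a : ℝ) (ξ : Fin d → ℝ) : ℝ := (1 + 4 * Real.pi ^ 2 * nrm ξ ^ 2) ^ (a / 2)

/-- The solution of the wave equation with the data
`u(0) = (1 - Δ)^(-s/2) f₀`, `∂ₜu(0) = (1 - Δ)^((1-s)/2) f₁`. -/
noncomputable def wave (s : ℝ) (f₀ f₁ : (Fin d → ℝ) → ℂ) (t : ℝ) (x : Fin d → ℝ) : ℂ :=
  ∫ ξ, chr x ξ *
    (((Real.cos (2 * Real.pi * t * nrm ξ) * bessel (-s) ξ : ℝ) : ℂ) * ft f₀ ξ +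
    ((Real.sin (2 * Real.pi * t * nrm ξ) / (2 * Real.pi * nrm ξ) * bessel (1 - s) ξ : ℝ) : ℂ) *
      ft f₁ ξ)

/-- `f` is integrable, so is `(1 + 4π²|ξ|²)^(-s/2) f^(ξ)`, and `f^` vanishes off the closed unit
cubes centred at the points of `Λ`. -/
def Admissible (s : ℝ) (L : Set (Fin d → ℤ)) (f : (Fin d → ℝ) → ℂ) : Prop :=
  Integrable f ∧ Integrable (fun ξ => (bessel (-s) ξ : ℂ) * ft f ξ) ∧
    ∀ ξ, ft f ξ ≠ 0 → ∃ l ∈ L, ∀ i, |ξ i - l i| ≤ 1 / 2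

/-- The estimate `∫_1^2 ‖u(t)‖_p^p dt ≤ C (‖u(0)‖_{L^p_s}^p + ‖∂ₜu(0)‖_{L^p_{s-1}}^p)` for data with
frequencies near `Λ`. -/
def LocalSmoothing (p s : ℝ) (C : ℝ≥0) (L : Set (Fin d → ℤ)) : Prop :=
  ∀ f₀ f₁ : (Fin d → ℝ) → ℂ, Admissible s L f₀ → Admissible s L f₁ →
    ∫⁻ t in Icc (1 : ℝ) 2, (∫⁻ x, ‖wave s f₀ f₁ t x‖ₑ ^ p) ≤
      C * ((∫⁻ x, ‖f₀ x‖ₑ ^ p) + ∫⁻ x, ‖f₁ x‖ₑ ^ p)

/-- The unit cube. -/
def cube (d : ℕ) : Set (Fin d → ℝ) := Icc (fun _ => -(1 / 2)) (fun _ => 1 / 2)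

/-- `∫_1^2 ∫_{cube} |∑ c_k e(k·y + |k|t)|^p dy dt ≤ (B R^κ)^p (∑ |c_k|²)^(p/2)` for all sums over
finite parts of `Λ ∩ {|k| ≤ R}`. -/
def ExponentialSums (p κ B : ℝ) (L : Set (Fin d → ℤ)) : Prop :=
  ∀ R : ℝ, 1 ≤ R → ∀ T : Finset (Fin d → ℤ), (∀ k ∈ T, k ∈ L ∧ len k ≤ R) →
    ∀ c : (Fin d → ℤ) → ℂ, ∫⁻ t in Icc (1 : ℝ) 2, (∫⁻ y in cube d,
      ‖∑ k ∈ T, c k * cexp (2 * Real.pi * I * (((∑ i, (k i : ℝ) * y i) + len k * t : ℝ) : ℂ))‖ₑ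
        ^ p) ≤ ENNReal.ofReal (B * R ^ κ) ^ p * (∑ k ∈ T, ‖c k‖ₑ ^ 2) ^ (p / 2)

/-- `Λ` has at most `A R^γ` points `k` with `|k| ≤ R`. -/
def Counting (γ A : ℝ) (L : Set (Fin d → ℤ)) : Prop :=
  ∀ R : ℝ, 1 ≤ R → ∀ P : Finset (Fin d → ℤ), (∀ k ∈ P, k ∈ L ∧ len k ≤ R) →
    (P.card : ℝ) ≤ A * R ^ γ

/-- For all `n` and `τ` there are at most `A R^β` points `k ∈ Λ` with `n - k ∈ Λ`,
`|k|, |n - k| ≤ R` and `||k| + |n - k| - τ| ≤ 1`. -/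
def Multiplicity (β A : ℝ) (L : Set (Fin d → ℤ)) : Prop :=
  ∀ R : ℝ, 1 ≤ R → ∀ (n : Fin d → ℤ) (τ : ℝ) (P : Finset (Fin d → ℤ)),
    (∀ k ∈ P, k ∈ L ∧ n - k ∈ L ∧ len k ≤ R ∧ len (n - k) ≤ R ∧
      |len k + len (n - k) - τ| ≤ 1) → (P.card : ℝ) ≤ A * R ^ β

open Pool.Agent.Y183.LS (ec dt iz tri HC HC_eq)

lemma chr_ec (x ξ : Fin d → ℝ) : chr x ξ = ec (dt x ξ) := rfl

lemma ft_eq (f : (Fin d → ℝ) → ℂ) : ft f = Pool.Agent.Q89.WS.ft f := by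
  ext ξ
  unfold ft Pool.Agent.Q89.WS.ft
  congr 1
  ext x
  rw [chr_ec]
  congr 2
  unfold dt
  rw [← Finset.sum_neg_distrib]
  apply Finset.sum_congr rfl
  intro i _
  rw [Pi.neg_apply]
  ring

lemma bessel_eq (a : ℝ) (ξ : Fin d → ℝ) : bessel a ξ = Pool.Agent.Q89.WS.Jr ξ ^ (a / 2) := by
  unfold bessel Pool.Agent.Q89.WS.Jr
  rw [← Pool.Agent.Q89.WS.nrm_sq]
  rfl

lemma wave_eq (s : ℝ) (f₀ f₁ : (Fin d → ℝ) → ℂ) (t : ℝ) (x : Fin d → ℝ) :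
    wave s f₀ f₁ t x = Pool.Agent.Q89.WS.wv s f₀ f₁ t x := by
  unfold wave Pool.Agent.Q89.WS.wv
  simp only [bessel_eq, ft_eq]
  rfl

lemma adm_eq {s : ℝ} {L : Set (Fin d → ℤ)} {f : (Fin d → ℝ) → ℂ} (h : Admissible s L f) :
    Pool.Agent.Q89.WS.Adm s L f := by
  obtain ⟨h1, h2, h3⟩ := h
  refine ⟨h1, ?_, ?_⟩
  · simp only [bessel_eq, ft_eq] at h2
    exact h2
  · intro ξ hξ
    rw [← ft_eq] at hξ
    exact h3 ξ hξ

lemma gr_of {p κ B : ℝ} {L : Set (Fin d → ℤ)} (h : ExponentialSums p κ B L) :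
    Pool.Agent.Q89.WS.Gr L p κ B := by
  intro R hR T hT c
  refine le_trans (le_of_eq ?_) (h R hR T hT c)
  congr 1
  ext t
  rw [HC_eq]
  congr 1
  ext y
  congr 2
  unfold tri
  apply Finset.sum_congr rfl
  intro k _
  rw [mul_assoc, ← Pool.Agent.Y183.LS.ec_add]
  unfold ec
  congr 2
  rw [add_comm (Pool.Agent.Q89.WS.nrm (iz k) * t)]
  rfl

lemma nonneg_of {β A : ℝ} {L : Set (Fin d → ℤ)} (h : Multiplicity β A L) : 0 ≤ A := by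
  have := h 1 le_rfl 0 0 ∅ (by simp)
  simpa using this

lemma core (n : ℕ) (p κ B s : ℝ) (hp : 2 ≤ p) (hκ : 0 ≤ κ) (hB : 0 ≤ B) (hs : κ < s) :
    ∃ C : ℝ≥0, ∀ L : Set (Fin (n + 1) → ℤ), Pool.Agent.Q89.WS.Gr L p κ B →
      LocalSmoothing p s C L := by
  obtain ⟨C, hC⟩ := Pool.Agent.Q89.WS.wave_est n s p κ B hp hκ hs hB
  refine ⟨C, fun L hL f₀ f₁ h0 h1 => ?_⟩
  simp only [wave_eq]
  exact hC L hL f₀ f₁ (adm_eq h0) (adm_eq h1)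

/-- **Local smoothing for data with frequencies near a set of small lifted multiplicity**, in
dimension `d = n + 1`.

1. If the exponential sums over `Λ ∩ B_R` satisfy the `ℓ²` estimate with the constant `B R^κ`, the
estimate holds for every `s > κ`.

2. It holds for `2 ≤ p ≤ 4` and `s > β(1/2 - 1/p)` if the lifted multiplicities are at most
`A R^β`.

3. If in addition `#(Λ ∩ B_R) ≤ A R^γ`, it holds for `p ≥ 4` and `s > γ(1/2 - 2/p) + β/p`.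

4. In particular, if `#(Λ ∩ B_R) ≤ A R^(d-1)` and the lifted multiplicities are at most
`A R^(d-2)`, it holds for all `p ≥ 4` with `s = s_p - σ`, `s_p = (d-1)(1/2 - 1/p)`, for every
`σ < 1/p`.

5. The lifted multiplicities are at most `A R^γ` if `#(Λ ∩ B_R) ≤ A R^γ`.

The constants do not depend on `Λ`. -/
theorem result (n : ℕ) :
    (∀ p κ B s : ℝ, 2 ≤ p → 0 ≤ κ → 0 ≤ B → κ < s → ∃ C : ℝ≥0, ∀ L : Set (Fin (n + 1) → ℤ),
      ExponentialSums p κ B L → LocalSmoothing p s C L) ∧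
    (∀ p β A s : ℝ, 2 ≤ p → p ≤ 4 → 0 ≤ β → β * (1 / 2 - 1 / p) < s → ∃ C : ℝ≥0,
      ∀ L : Set (Fin (n + 1) → ℤ), Multiplicity β A L → LocalSmoothing p s C L) ∧
    (∀ p β γ A s : ℝ, 4 ≤ p → 0 ≤ β → 0 ≤ γ → γ * (1 / 2 - 2 / p) + β / p < s → ∃ C : ℝ≥0,
      ∀ L : Set (Fin (n + 1) → ℤ), Counting γ A L → Multiplicity β A L →
        LocalSmoothing p s C L) ∧
    (∀ p A σ : ℝ, 1 ≤ n → 4 ≤ p → σ < 1 / p → ∃ C : ℝ≥0, ∀ L : Set (Fin (n + 1) → ℤ),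
      Counting n A L → Multiplicity (n - 1) A L →
        LocalSmoothing p ((n : ℝ) / 2 - n / p - σ) C L) ∧
    (∀ (γ A : ℝ) (L : Set (Fin (n + 1) → ℤ)), Counting γ A L → Multiplicity γ A L) := by
  have h3 : ∀ p β γ A s : ℝ, 4 ≤ p → 0 ≤ β → 0 ≤ γ → γ * (1 / 2 - 2 / p) + β / p < s →
      ∃ C : ℝ≥0, ∀ L : Set (Fin (n + 1) → ℤ), Counting γ A L → Multiplicity β A L →
        LocalSmoothing p s C L := by
    intro p β γ A s hp hβ hγ hs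
    have hp0 : 0 < p := by linarith
    by_cases hA : 0 ≤ A
    · obtain ⟨B, hB, h⟩ := Pool.Agent.Q89.WS.Gr_of_Cnt (n + 1) (β := β) (γ := γ) hA hA hp
      have h2p : 2 / p ≤ 1 / 2 := by
        rw [div_le_div_iff₀ hp0 (by norm_num)]
        linarith
      obtain ⟨C, hC⟩ := core n p (γ * (1 / 2 - 2 / p) + β / p) B s (by linarith)
        (add_nonneg (mul_nonneg hγ (by linarith)) (by positivity)) hB hs
      exact ⟨C, fun L hL hL' => hC L (h L hL' hL)⟩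
    · exact ⟨0, fun L _ hL => absurd (nonneg_of hL) hA⟩
  refine ⟨?_, ?_, h3, ?_, ?_⟩
  · intro p κ B s hp hκ hB hs
    obtain ⟨C, hC⟩ := core n p κ B s hp hκ hB hs
    exact ⟨C, fun L hL => hC L (gr_of hL)⟩
  · intro p β A s hp2 hp4 hβ hs
    have hp0 : 0 < p := by linarith
    by_cases hA : 0 ≤ A
    · obtain ⟨B, hB, h⟩ := Pool.Agent.Q89.WS.Gr_of_Mul (n + 1) (β := β) hA hp2 hp4
      have h2p : 1 / p ≤ 1 / 2 := one_div_le_one_div_of_le (by norm_num) hp2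
      obtain ⟨C, hC⟩ := core n p (β * (1 / 2 - 1 / p)) B s hp2
        (mul_nonneg hβ (by linarith)) hB hs
      exact ⟨C, fun L hL => hC L (h L hL)⟩
    · exact ⟨0, fun L hL => absurd (nonneg_of hL) hA⟩
  · intro p A σ hn hp hσ
    have hp0 : 0 < p := by linarith
    have hn1 : (1 : ℝ) ≤ n := by exact_mod_cast hn
    apply h3 p ((n : ℝ) - 1) n A _ hp (by linarith) (by linarith)
    have e : (n : ℝ) * (1 / 2 - 2 / p) + ((n : ℝ) - 1) / p = (n : ℝ) / 2 - n / p - 1 / p := by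
      field_simp
      ring
    rw [e]
    linarith
  · intro γ A L h R hR m τ P hP
    exact h R hR P fun k hk => ⟨(hP k hk).1, (hP k hk).2.2.1⟩

end Pool.Agent.Results.MP_ee74d2_an.SpectralMultiplicity
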